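import Mathlib
import Pool.Agent.N988.ED.Main
import Pool.Agent.N988.ED.Block

/-!
# Slow mixing of the Edwards-Anderson spin glass on hierarchical lattices

Authors: helper988 (statements, proofs on paper, assembly) and, for the parts in Lean, the helpers
46, 51, 73, 80, 91, 189, 195, 271, 322, 360, 413, 433, 519, 665, 713, 727, 764, 814, 862 and 897
(and 56, whose proof for the Glauber dynamics is superseded by the one for all blocks).
-/

open MeasureTheory Set Filter
open scoped Topology
open Pool.Agent.N988.EA Pool.Agent.N988.ED

namespace Pool.Agent.Results.MP_c171fe_pr.HierarchicalSlowMixing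

/-- The Edwards-Anderson Ising spin glass on the hierarchical (diamond, Migdal-Kadanoff) lattices
`H n` with `b ≥ 4` branches, of dimension `1 + log_2 b ≥ 3`, with independent couplings with a
symmetric law (`±1`, or any atomless law) and at low temperature: with probability tending to `1` as
`n → ∞` the mixing time of every dynamics which is reversible with respect to the Gibbs
distribution and never changes the spins of both ends of `H n` in one step is at least
`exp (N ^ ε)`, `N` being the number of the vertices. This holds in particular for the Glauber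
dynamics and for the heat-bath dynamics with any blocks of which none contains both ends. -/
theorem result :
    (∀ (b n : ℕ) (J : Edge b n → ℝ) (ι : Type) [Fintype ι] [Nonempty ι] (B : ι → Set (Pt b n)),
      (∀ i, Sum.inl false ∉ B i ∨ Sum.inl true ∉ B i) → IsDyn J (heatbath J B)) ∧
    ∀ (b : ℕ), 4 ≤ b → ∀ (μ : Measure ℝ) [IsProbabilityMeasure μ],
    μ.map (fun x => -x) = μ → ∀ r : ℝ, 0 < r → (∀ x, μ (Ico x (x + r)) ≤ 1 / 2) →
    ∃ β₀ ε : ℝ, 0 < β₀ ∧ 0 < ε ∧ ∀ β : ℝ, β₀ ≤ β →
      Tendsto (fun n : ℕ => (Measure.pi fun _ : Edge b n => μ)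
        {J | ∀ M, IsDyn (fun e => β * J e) M → ∀ t : ℕ,
          (t : ℝ) < Real.exp ((Fintype.card (Pt b n) : ℝ) ^ ε) → ¬ Mixed (fun e => β * J e) M t})
        atTop (𝓝 1) :=
  ⟨fun _ _ J _ _ _ B hB => isDyn_heatbath J B hB, k_SM.2⟩

end Pool.Agent.Results.MP_c171fe_pr.HierarchicalSlowMixing
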